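import Mathlib
import Pool.Agent.W335.SDG

/-!
# MP_5f76cf: a nonamenable Polish group with a Hilbert space cocycle of linear growth

The group is `ℓ²(Y) ⋊ Aut(Y, C)` where `(Y, C)` is the countable dense circular order and
`Aut(Y, C)` carries the topology of pointwise convergence. It acts by affine isometries on
`ℓ²(Y)`, the maximal metric is `‖v - w‖ + δ(k, l)` with `δ` bounded, and the automorphism group
has no invariant probability measure on the compact space of cuts of the circle.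
-/

set_option autoImplicit false

namespace Pool.Agent.Results.MP_5f76cf_al.NonamenableFastCocycle

open Set Filter Topology MeasureTheory

/-- `d` is a compatible left-invariant metric on the topological group `G`. -/
structure IsCompatibleMetric (G : Type) [Group G] [TopologicalSpace G] (d : G → G → ℝ) : Prop where
  self : ∀ x, d x x = 0
  eq_of_zero : ∀ x y, d x y = 0 → x = y
  symm : ∀ x y, d x y = d y x
  triangle : ∀ x y z, d x z ≤ d x y + d y z
  left_inv : ∀ g x y, d (g * x) (g * y) = d x y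
  nhds_basis : ∀ x : G, (𝓝 x).HasBasis (fun ε : ℝ => 0 < ε) (fun ε => {y | d x y < ε})

/-- `d` is a maximal compatible left-invariant metric. -/
structure IsMaximalMetric (G : Type) [Group G] [TopologicalSpace G] (d : G → G → ℝ) : Prop where
  compatible : IsCompatibleMetric G d
  maximal : ∀ d' : G → G → ℝ, IsCompatibleMetric G d' → ∃ K : ℝ, ∀ x y, d' x y ≤ K * d x y + K

/-- Every continuous action on a nonempty compact Hausdorff space has an invariant Borel
probability measure. -/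
def IsAmenable (G : Type) [Group G] [TopologicalSpace G] : Prop :=
  ∀ (X : Type) [TopologicalSpace X] [CompactSpace X] [T2Space X] [Nonempty X] [MulAction G X]
    [ContinuousSMul G X], ∃ μ : @Measure X (borel X), @IsProbabilityMeasure X (borel X) μ ∧
      ∀ g : G, @Measure.map X X (borel X) (borel X) (fun x => g • x) μ = μ

/-- The cocycle of the action `α` grows faster than the square root of the distance. -/
def GrowsFasterThanSqrt {G : Type} [Group G] {E : Type} [NormedAddCommGroup E]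
    [InnerProductSpace ℝ E] (d : G → G → ℝ) (α : G →* (E ≃ᵃⁱ[ℝ] E)) : Prop :=
  ∃ a C : ℝ, 1 / 2 < a ∧ 0 < C ∧ ∀ g, 1 / C * (d g 1) ^ a - C ≤ ‖α g 0‖

/-- `α` is a faithful continuous affine isometric action with a cocycle of linear growth. -/
structure IsFastAction {G : Type} [Group G] [TopologicalSpace G] {E : Type}
    [NormedAddCommGroup E] [InnerProductSpace ℝ E] (d : G → G → ℝ) (α : G →* (E ≃ᵃⁱ[ℝ] E)) :
    Prop where
  continuous : Continuous (fun p : G × E => α p.1 p.2)
  fast : GrowsFasterThanSqrt d α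
  lower : ∀ g, d g 1 - 1 ≤ ‖α g 0‖
  upper : ∀ g, ‖α g 0‖ ≤ d g 1
  faithful : Function.Injective α

/-- `G` has such an action on some Hilbert space. -/
def HasFastAction (G : Type) [Group G] [TopologicalSpace G] (d : G → G → ℝ) : Prop :=
  ∃ (E : Type) (_ : NormedAddCommGroup E) (_ : InnerProductSpace ℝ E) (_ : CompleteSpace E)
    (α : G →* (E ≃ᵃⁱ[ℝ] E)), IsFastAction d α

/-- `d` is unbounded on every nontrivial normal subgroup of `G`, and on `G`. -/
structure IsUnbounded (G : Type) [Group G] (d : G → G → ℝ) : Prop where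
  whole : ∀ R : ℝ, ∃ g, R < d g 1
  normal : ∀ N : Subgroup G, N.Normal → (∃ R : ℝ, ∀ g ∈ N, d g 1 ≤ R) → N = ⊥

open Pool.Agent.W335 Pool.Agent.W335.SDG

theorem length_mul {G : Type} [Group G] [TopologicalSpace G] {d : G → G → ℝ}
    (h : IsCompatibleMetric G d) (x y : G) : d (x * y) 1 ≤ d x 1 + d y 1 := by
  have h1 := h.triangle (x * y) x 1
  have h2 := h.left_inv x y 1
  rw [mul_one] at h2
  linarith

theorem length_inv {G : Type} [Group G] [TopologicalSpace G] {d : G → G → ℝ}
    (h : IsCompatibleMetric G d) (x : G) : d x⁻¹ 1 = d x 1 := by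
  have h2 := h.left_inv x x⁻¹ 1
  rw [mul_one, mul_inv_cancel] at h2
  rw [← h2, h.symm]

theorem length_eq {G : Type} [Group G] [TopologicalSpace G] {d : G → G → ℝ}
    (h : IsCompatibleMetric G d) (x y : G) : d x y = d (y⁻¹ * x) 1 := by
  have h2 := h.left_inv y⁻¹ x y
  rw [inv_mul_cancel] at h2
  exact h2.symm

/-- inclusion of the automorphism group -/
noncomputable def incK : circAut →* SDG where
  toFun k := (((0 : L2 QB), k) : L2 QB × circAut)
  map_one' := rfl
  map_mul' k l := by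
    refine Prod.ext ?_ rfl
    show (0 : L2 QB) = 0 + pl k 0
    rw [map_zero, add_zero]

/-- inclusion of the vectors -/
noncomputable def incV (v : L2 QB) : SDG := ((v, (1 : circAut)) : L2 QB × circAut)

theorem incV_add (v w : L2 QB) : incV (v + w) = incV v * incV w := rfl

theorem incV_zero : incV 0 = 1 := rfl

theorem decomp (p : SDG) : p = incV p.1 * incK p.2 := by
  refine Prod.ext ?_ (one_mul _).symm
  show p.1 = p.1 + pl 1 0
  rw [map_zero, add_zero]

theorem length_bound (d : SDG → SDG → ℝ) (hd : IsCompatibleMetric SDG d) :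
    ∃ ε B : ℝ, 0 < ε ∧ 0 ≤ B ∧ ∀ p : SDG, d p 1 ≤ ‖(p.1 : L2 QB)‖ / ε + B := by
  have h1 : {p : SDG | d 1 p < 1} ∈ 𝓝 (1 : SDG) := (hd.nhds_basis 1).mem_of_mem one_pos
  have hnn : ∀ x y, 0 ≤ d x y := by
    intro x y
    have h2 := hd.triangle x y x
    rw [hd.self, hd.symm y x] at h2
    linarith
  -- the automorphism group is bounded
  have hK : ∃ B, ∀ k : circAut, d (incK k) 1 ≤ B := by
    have hc : Continuous (fun k : circAut => incK k) := by
      have h3 : Continuous (fun k : circAut => (((0 : L2 QB), k) : L2 QB × circAut)) :=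
        continuous_const.prodMk continuous_id
      exact h3
    have h2 : (fun k : circAut => incK k) ⁻¹' {p : SDG | d 1 p < 1} ∈ 𝓝 (1 : circAut) :=
      hc.continuousAt.preimage_mem_nhds (by rw [map_one]; exact h1)
    obtain ⟨A, hA⟩ := (perm_mem_nhds circAut 1 _).1 h2
    refine circ_OB (fun k => d (incK k) 1) (fun g h => ?_) (fun g => ?_) A (fun g hg => ?_)
    · show d (incK (g * h)) 1 ≤ _
      rw [map_mul]
      exact length_mul hd _ _
    · show d (incK g⁻¹) 1 = _
      rw [map_inv]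
      exact length_inv hd _
    · have h3 : d 1 (incK g) < 1 := hA g fun y hy => hg y hy
      rw [hd.symm] at h3
      exact h3.le
  obtain ⟨B, hB⟩ := hK
  -- the vectors
  have hV : ∃ ε : ℝ, 0 < ε ∧ ∀ v : L2 QB, ‖v‖ < ε → d (incV v) 1 ≤ 1 := by
    have hc : Continuous (fun v : L2 QB => incV v) := by
      have h3 : Continuous (fun v : L2 QB => ((v, (1 : circAut)) : L2 QB × circAut)) :=
        continuous_id.prodMk continuous_const
      exact h3
    have h2 : (fun v : L2 QB => incV v) ⁻¹' {p : SDG | d 1 p < 1} ∈ 𝓝 (0 : L2 QB) :=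
      hc.continuousAt.preimage_mem_nhds (by rw [incV_zero]; exact h1)
    obtain ⟨ε, hε, hε2⟩ := Metric.mem_nhds_iff.1 h2
    refine ⟨ε, hε, fun v hv => ?_⟩
    have h3 : d 1 (incV v) < 1 := hε2 (by rw [Metric.mem_ball, dist_zero_right]; exact hv)
    rw [hd.symm] at h3
    exact h3.le
  obtain ⟨ε, hε, hV⟩ := hV
  have hmul : ∀ (n : ℕ) (v : L2 QB), d (incV ((n : ℝ) • v)) 1 ≤ n * d (incV v) 1 := by
    intro n v
    induction n with
    | zero => simp [incV_zero, hd.self]
    | succ n ih =>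
      push_cast
      rw [add_smul, one_smul, incV_add]
      have := length_mul hd (incV ((n : ℝ) • v)) (incV v)
      linarith
  have hV2 : ∀ v : L2 QB, d (incV v) 1 ≤ ‖v‖ / ε + 1 := by
    intro v
    set n : ℕ := ⌊‖v‖ / ε⌋₊ + 1 with hn
    have hn0 : (0 : ℝ) < n := by rw [hn]; positivity
    have h2 : ‖v‖ / ε < n := by rw [hn]; push_cast; exact Nat.lt_floor_add_one _
    have h3 : ‖(n : ℝ)⁻¹ • v‖ < ε := by
      rw [norm_smul, norm_inv, Real.norm_of_nonneg hn0.le, inv_mul_lt_iff₀ hn0]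
      rwa [div_lt_iff₀ hε] at h2
    have h4 := hmul n ((n : ℝ)⁻¹ • v)
    rw [smul_smul, mul_inv_cancel₀ hn0.ne', one_smul] at h4
    have h5 := hV _ h3
    have h6 : (n : ℝ) ≤ ‖v‖ / ε + 1 := by
      rw [hn]
      push_cast
      have := Nat.floor_le (show 0 ≤ ‖v‖ / ε by positivity)
      linarith
    calc d (incV v) 1 ≤ n * d (incV ((n : ℝ)⁻¹ • v)) 1 := h4
      _ ≤ n * 1 := by gcongr
      _ ≤ ‖v‖ / ε + 1 := by rw [mul_one]; exact h6
  have hB0 : 0 ≤ B := (hnn _ _).trans (hB 1)
  refine ⟨ε, 1 + B, hε, by linarith, fun p => ?_⟩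
  calc d p 1 = d (incV p.1 * incK p.2) 1 := by rw [← decomp]
    _ ≤ d (incV p.1) 1 + d (incK p.2) 1 := length_mul hd _ _
    _ ≤ (‖p.1‖ / ε + 1) + B := by
        have := hV2 p.1
        have := hB p.2
        linarith
    _ = _ := by ring

/-- There is a nonamenable Polish group `G` with a maximal metric `d`, of infinite diameter, and
a faithful continuous affine isometric action on a Hilbert space whose cocycle satisfies
`d(g, 1) - 1 ≤ ‖b(g)‖ ≤ d(g, 1)`, and such that no nontrivial normal subgroup of `G` is bounded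
for `d`. -/
theorem result : ∃ (G : Type) (_ : Group G) (_ : TopologicalSpace G) (_ : IsTopologicalGroup G)
    (_ : PolishSpace G) (d : G → G → ℝ),
    IsMaximalMetric G d ∧ HasFastAction G d ∧ ¬ IsAmenable G ∧ IsUnbounded G d := by
  obtain ⟨δ, δ0, δe, δs, δt, δl, δ1, δn⟩ := exists_bdd_metric circAut
  have δnn : ∀ x y, 0 ≤ δ x y := by
    intro x y
    have h2 := δt x y x
    rw [δ0, δs y x] at h2
    linarith
  let d : SDG → SDG → ℝ := fun p q => ‖(p.1 : L2 QB) - q.1‖ + δ p.2 q.2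
  have hd : IsCompatibleMetric SDG d := by
    refine ⟨fun x => ?_, fun x y h => ?_, fun x y => ?_, fun x y z => ?_, fun g x y => ?_,
      fun x => ⟨fun U => ?_⟩⟩
    · show ‖(x.1 : L2 QB) - x.1‖ + δ x.2 x.2 = 0
      rw [δ0, sub_self, norm_zero, add_zero]
    · have h' : ‖(x.1 : L2 QB) - y.1‖ + δ x.2 y.2 = 0 := h
      have h1 := norm_nonneg ((x.1 : L2 QB) - y.1)
      have h2 := δnn x.2 y.2
      refine Prod.ext ?_ (δe _ _ (by linarith))
      have h3 : ‖(x.1 : L2 QB) - y.1‖ = 0 := by linarith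
      exact sub_eq_zero.1 (norm_eq_zero.1 h3)
    · show ‖(x.1 : L2 QB) - y.1‖ + δ x.2 y.2 = ‖(y.1 : L2 QB) - x.1‖ + δ y.2 x.2
      rw [norm_sub_rev, δs]
    · show ‖(x.1 : L2 QB) - z.1‖ + δ x.2 z.2 ≤
        (‖(x.1 : L2 QB) - y.1‖ + δ x.2 y.2) + (‖(y.1 : L2 QB) - z.1‖ + δ y.2 z.2)
      have h1 := δt x.2 y.2 z.2
      have h2 := norm_sub_le_norm_sub_add_norm_sub (x.1 : L2 QB) y.1 z.1
      linarith
    · show ‖((g.1 : L2 QB) + pl g.2 x.1) - (g.1 + pl g.2 y.1)‖ + δ (g.2 * x.2) (g.2 * y.2) =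
        ‖(x.1 : L2 QB) - y.1‖ + δ x.2 y.2
      rw [δl, add_sub_add_left_eq_sub, ← map_sub, LinearIsometryEquiv.norm_map]
    · have hn : 𝓝 x = 𝓝 (x.1 : L2 QB) ×ˢ 𝓝 (x.2 : circAut) :=
        nhds_prod_eq (x := (x.1 : L2 QB)) (y := x.2)
      rw [hn]
      constructor
      · intro hU
        obtain ⟨t1, ht1, t2, ht2, h12⟩ := mem_prod_iff.1 hU
        obtain ⟨e1, he1, he1'⟩ := Metric.mem_nhds_iff.1 ht1
        obtain ⟨e2, he2, he2'⟩ := (δn x.2).mem_iff.1 ht2
        refine ⟨min e1 e2, lt_min he1 he2, fun y hy => h12 ⟨he1' ?_, he2' ?_⟩⟩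
        · have hy' : ‖(x.1 : L2 QB) - y.1‖ + δ x.2 y.2 < min e1 e2 := hy
          have h2 := δnn x.2 y.2
          rw [Metric.mem_ball, dist_comm, dist_eq_norm]
          have := min_le_left e1 e2
          linarith
        · have hy' : ‖(x.1 : L2 QB) - y.1‖ + δ x.2 y.2 < min e1 e2 := hy
          have h2 := norm_nonneg ((x.1 : L2 QB) - y.1)
          have := min_le_right e1 e2
          show δ x.2 y.2 < e2
          linarith
      · rintro ⟨ε, hε, hU⟩
        refine mem_prod_iff.2 ⟨Metric.ball (x.1 : L2 QB) (ε / 2),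
          Metric.ball_mem_nhds _ (half_pos hε), {k | δ x.2 k < ε / 2},
          (δn x.2).mem_of_mem (half_pos hε), fun y hy => hU ?_⟩
        have h1 : dist (y.1 : L2 QB) x.1 < ε / 2 := hy.1
        have h2 : δ x.2 y.2 < ε / 2 := hy.2
        rw [dist_comm, dist_eq_norm] at h1
        show ‖(x.1 : L2 QB) - y.1‖ + δ x.2 y.2 < ε
        linarith
  have hd1 : ∀ p : SDG, d p 1 = ‖(p.1 : L2 QB)‖ + δ p.2 1 := by
    intro p
    show ‖(p.1 : L2 QB) - 0‖ + δ p.2 1 = _
    rw [sub_zero]
  have hlow : ∀ p : SDG, d p 1 - 1 ≤ ‖act p 0‖ := by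
    intro p
    rw [act_zero, hd1]
    have := δ1 p.2 1
    linarith
  have hupp : ∀ p : SDG, ‖act p 0‖ ≤ d p 1 := by
    intro p
    rw [act_zero, hd1]
    have := δnn p.2 1
    linarith
  refine ⟨SDG, inferInstance, inferInstance, inferInstance, inferInstance, d, ⟨hd, ?_⟩,
    ⟨L2 QB, inferInstance, inferInstance, inferInstance, act, act_continuous,
      ⟨1, 1, by norm_num, one_pos, fun g => ?_⟩, hlow, hupp, act_injective⟩, ?_, ?_, ?_⟩
  · intro d' hd'
    obtain ⟨ε, B, hε, hB, h⟩ := length_bound d' hd'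
    refine ⟨1 / ε + B, fun x y => ?_⟩
    rw [length_eq hd', length_eq hd x y]
    have h1 := h (y⁻¹ * x)
    have h2 := hupp (y⁻¹ * x)
    rw [act_zero] at h2
    have h3 : 0 ≤ d (y⁻¹ * x) 1 := (norm_nonneg _).trans h2
    have h4 : ‖((y⁻¹ * x).1 : L2 QB)‖ / ε ≤ 1 / ε * d (y⁻¹ * x) 1 := by
      rw [div_eq_inv_mul, one_div]
      gcongr
    have h5 : 0 ≤ B * d (y⁻¹ * x) 1 := by positivity
    have h6 : 0 < 1 / ε := by positivity
    nlinarith
  · rw [Real.rpow_one, div_one, one_mul]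
    exact hlow g
  · intro ham
    have := sdg_continuousSMul
    obtain ⟨μ, hμ, hinv⟩ := ham Cut
    exact no_invariant μ hμ fun g => hinv (incK g)
  · intro R
    obtain ⟨n, hn⟩ := exists_nat_gt R
    refine ⟨incV (lp.single 2 (⊥ : QB) (n : ℝ)), ?_⟩
    have h1 := hupp (incV (lp.single 2 (⊥ : QB) (n : ℝ)))
    rw [act_zero] at h1
    have h2 : ‖(lp.single 2 (⊥ : QB) (n : ℝ) : L2 QB)‖ = n := by
      rw [lp.norm_single (by norm_num), Real.norm_of_nonneg (Nat.cast_nonneg n)]
    have h3 : ((incV (lp.single 2 (⊥ : QB) (n : ℝ))).1 : L2 QB) = lp.single 2 (⊥ : QB) (n : ℝ) := rfl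
    rw [h3, h2] at h1
    linarith
  · rintro N hN ⟨R, hR⟩
    rw [Subgroup.eq_bot_iff_forall]
    intro g hg
    have hbd : ∀ p ∈ N, ‖(p.1 : L2 QB)‖ ≤ R := by
      intro p hp
      have h1 := hupp p
      rw [act_zero] at h1
      exact h1.trans (hR p hp)
    -- conjugates by vectors
    have hconj : ∀ w : L2 QB, ‖w + (g.1 : L2 QB) - pl g.2 w‖ ≤ R := by
      intro w
      have h1 := hN.conj_mem g hg (incV w)
      have h2 := hbd _ h1
      have h3 : ((incV w * g * (incV w)⁻¹).1 : L2 QB) = w + (g.1 : L2 QB) - pl g.2 w := by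
        show (w + pl 1 (g.1 : L2 QB)) + pl (1 * g.2) (-(pl (1 : circAut)⁻¹ w)) = _
        rw [one_mul, inv_one, pl_one, pl_one, map_neg, sub_eq_add_neg]
      rwa [h3] at h2
    have hfix : ∀ w : L2 QB, pl g.2 w = w := by
      intro w
      by_contra hne
      have h1 : 0 < ‖w - pl g.2 w‖ := norm_pos_iff.2 (sub_ne_zero.2 (Ne.symm hne))
      obtain ⟨n, hn⟩ := exists_nat_gt ((R + ‖(g.1 : L2 QB)‖) / ‖w - pl g.2 w‖)
      rw [div_lt_iff₀ h1] at hn
      have h2 := hconj ((n : ℝ) • w)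
      have h3 : (n : ℝ) • w + (g.1 : L2 QB) - pl g.2 ((n : ℝ) • w) =
          (n : ℝ) • (w - pl g.2 w) + g.1 := by
        rw [map_smul, smul_sub]
        abel
      rw [h3] at h2
      have h4 : ‖(n : ℝ) • (w - pl g.2 w)‖ ≤
          ‖(n : ℝ) • (w - pl g.2 w) + (g.1 : L2 QB)‖ + ‖(g.1 : L2 QB)‖ := by
        have h5 := norm_sub_le ((n : ℝ) • (w - pl g.2 w) + (g.1 : L2 QB)) g.1
        rwa [add_sub_cancel_right] at h5
      rw [norm_smul, Real.norm_of_nonneg (Nat.cast_nonneg n)] at h4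
      linarith
    have hk : g.2 = 1 := pl_faithful _ hfix
    have hpow : ∀ n : ℕ, incV ((n : ℝ) • (g.1 : L2 QB)) ∈ N := by
      intro n
      induction n with
      | zero =>
        rw [Nat.cast_zero, zero_smul, incV_zero]
        exact N.one_mem
      | succ n ih =>
        have h1 : incV (((n + 1 : ℕ) : ℝ) • (g.1 : L2 QB)) = incV ((n : ℝ) • (g.1 : L2 QB)) * g := by
          push_cast
          rw [add_smul, one_smul, incV_add]
          congr 1
          exact Prod.ext rfl hk.symm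
        rw [h1]
        exact N.mul_mem ih hg
    have hv : (g.1 : L2 QB) = 0 := by
      by_contra hne
      have h1 : 0 < ‖(g.1 : L2 QB)‖ := norm_pos_iff.2 hne
      obtain ⟨n, hn⟩ := exists_nat_gt (R / ‖(g.1 : L2 QB)‖)
      rw [div_lt_iff₀ h1] at hn
      have h2 := hbd _ (hpow n)
      have h3 : ((incV ((n : ℝ) • (g.1 : L2 QB))).1 : L2 QB) = (n : ℝ) • (g.1 : L2 QB) := rfl
      rw [h3, norm_smul, Real.norm_of_nonneg (Nat.cast_nonneg n)] at h2
      linarith
    exact Prod.ext hv hk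

end Pool.Agent.Results.MP_5f76cf_al.NonamenableFastCocycle
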